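import Pool.Agent.P.MP_38c95b_ag.Main

/-!
Commutative algebra for the specialisation argument.
-/

open Polynomial

namespace Pool.Agent.P.MP_38c95b_ag.G

/-- extension of a ring map to an algebraically closed field along an integral map -/
theorem ext_int {R S k : Type} [CommRing R] [CommRing S] [Field k] [IsAlgClosed k] (ι : R →+* S)
    (hι : ι.IsIntegral) (χ : R →+* k) (h : ∀ r, ι r = 0 → χ r = 0) :
    ∃ ξ : S →+* k, ∀ r, ξ (ι r) = χ r := by
  let := ι.toAlgebra
  have : Algebra.IsIntegral R S := ⟨hι⟩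
  have := RingHom.ker_isPrime χ
  obtain ⟨Q, -, hQ, e⟩ := Ideal.exists_ideal_over_prime_of_isIntegral (S := S) (RingHom.ker χ) ⊥
    fun r hr => h r hr
  have : Q.LiesOver (RingHom.ker χ) := ⟨e.symm⟩
  let := (RingHom.kerLift χ).toAlgebra
  have : FaithfulSMul (R ⧸ RingHom.ker χ) k :=
    (faithfulSMul_iff_algebraMap_injective _ _).2 (RingHom.kerLift_injective χ)
  let σ : (S ⧸ Q) →ₐ[R ⧸ RingHom.ker χ] k := IsAlgClosed.lift
  exact ⟨σ.toRingHom.comp (Ideal.Quotient.mk Q), fun r => σ.commutes (Ideal.Quotient.mk _ r)⟩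

/-- a normal subring with a place to the ground field -/
theorem exists_place {k K : Type} [Field k] [IsAlgClosed k] [Field K] [Algebra k K] {T : Set K}
    (hT : T.Finite) : ∃ (A : Subring K) (φ : A →+* k), T ⊆ A ∧ Function.Surjective φ ∧
      (∀ x, IsIntegral A x → x ∈ A) ∧ ∀ x : K, ∃ s ∈ A, s ≠ 0 ∧ s * x ∈ A := by
  let A₀ := Algebra.adjoin k T
  have : Algebra.FiniteType k A₀ := Algebra.FiniteType.adjoin_of_finite hT
  obtain ⟨s, g, hg, hf⟩ := exists_finite_inj_algHom_of_fg k A₀
  obtain ⟨φ₀, h₀⟩ := ext_int g.toRingHom (RingHom.IsIntegral.of_finite hf)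
    MvPolynomial.constantCoeff fun r hr => by rw [hg (hr.trans (map_zero g).symm), map_zero]
  obtain ⟨t, ht⟩ := exists_isTranscendenceBasis A₀ K
  let A₁ := Algebra.adjoin A₀ (Set.range ((↑) : t → K))
  have := ht.isAlgebraic
  obtain ⟨φ, h₁⟩ := ext_int (R := A₁) (S := integralClosure A₁ K) (algebraMap _ _)
    (algebraMap_isIntegral_iff.2 inferInstance)
    (φ₀.comp (MvPolynomial.constantCoeff.comp ht.1.aevalEquiv.symm.toRingEquiv.toRingHom))
    fun r hr => by
      have : ((algebraMap A₁ (integralClosure A₁ K) r : integralClosure A₁ K) : K) = 0 := by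
        rw [hr]; rfl
      rw [show r = 0 from Subtype.ext this, map_zero]
  refine ⟨(integralClosure A₁ K).toSubring, φ, fun x hx => ?_, fun c => ?_, fun x hx => ?_,
    fun x => ?_⟩
  · exact (integralClosure A₁ K).algebraMap_mem (algebraMap A₀ A₁ ⟨x, Algebra.subset_adjoin hx⟩)
  · refine ⟨_, (h₁ (algebraMap A₀ A₁ (g (MvPolynomial.C c)))).trans ?_⟩
    refine Eq.trans (congrArg (fun z => φ₀ (MvPolynomial.constantCoeff z))
      (ht.1.aevalEquiv.symm.commutes (g (MvPolynomial.C c)))) ?_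
    simpa using h₀ (MvPolynomial.C c)
  · exact isIntegral_trans (A := integralClosure A₁ K) x hx
  · obtain ⟨y, hy, h⟩ := (Algebra.IsAlgebraic.isAlgebraic (R := A₁) x).exists_integral_multiple
    exact ⟨y, (integralClosure A₁ K).algebraMap_mem y, fun e => hy (Subtype.ext e), h⟩

theorem icl_mv (A : Type) [CommRing A] [IsDomain A] [IsIntegrallyClosed A] (d : ℕ) :
    IsIntegrallyClosed (MvPolynomial (Fin d) A) := by
  induction d with
  | zero => exact .of_equiv (MvPolynomial.isEmptyRingEquiv A (Fin 0)).symm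
  | succ d ih => exact .of_equiv (MvPolynomial.finSuccEquiv A d).toRingEquiv.symm

section frac

variable {A K : Type} [CommRing A] [Field K] [Algebra A K] [IsFractionRing A K]

theorem root_mem [IsDomain A] [IsAlgClosed K] [IsIntegrallyClosed A] {D : Type} [CommRing D] [IsDomain D]
    [Algebra A D] (b : D) (p : A[X]) (hp : p.Monic) (h : aeval b p = 0) :
    ∃ a, algebraMap A D a = b := by
  induction hd : p.natDegree generalizing p with
  | zero => simp [hp.natDegree_eq_zero.1 hd] at h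
  | succ n ih =>
    obtain ⟨r, hr⟩ := IsAlgClosed.exists_aeval_eq_zero K p
      (by rw [degree_eq_natDegree hp.ne_zero, hd]; exact_mod_cast n.succ_ne_zero)
    obtain ⟨a, rfl⟩ := IsIntegrallyClosed.isIntegral_iff.1 (⟨p, hp, hr⟩ : IsIntegral A r)
    rw [aeval_algebraMap_apply_eq_algebraMap_eval, IsFractionRing.to_map_eq_zero_iff] at hr
    have h1 := mul_divByMonic_eq_iff_isRoot.2 hr
    rw [← h1, map_mul, mul_eq_zero] at h
    refine h.elim (fun h => ⟨a, ?_⟩) fun h => ih _ ((monic_X_sub_C a).of_mul_monic_left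
      (h1.symm ▸ hp)) h ?_
    · exact (sub_eq_zero.1 (by simpa using h)).symm
    · rw [natDegree_divByMonic _ (monic_X_sub_C a), hd, natDegree_X_sub_C]; rfl

theorem exists_denom [IsDomain A] {σ : Type} (h : MvPolynomial σ K) : ∃ s : A, s ≠ 0 ∧
    ∃ h' : MvPolynomial σ A, h'.map (algebraMap A K) = MvPolynomial.C (algebraMap A K s) * h := by
  induction h using MvPolynomial.induction_on with
  | C a =>
    obtain ⟨x, y, hy, rfl⟩ := IsFractionRing.div_surjective (A := A) a
    refine ⟨y, nonZeroDivisors.ne_zero hy, MvPolynomial.C x, ?_⟩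
    rw [← map_mul, mul_div_cancel₀ _ (IsFractionRing.to_map_ne_zero_of_mem_nonZeroDivisors hy)]
    simp
  | add p q hp hq =>
    obtain ⟨s, hs, p', hp⟩ := hp
    obtain ⟨t, ht, q', hq⟩ := hq
    refine ⟨s * t, mul_ne_zero hs ht, MvPolynomial.C t * p' + MvPolynomial.C s * q', ?_⟩
    simp only [map_add, map_mul, hp, hq, MvPolynomial.map_C]
    ring
  | mul_X p i hp =>
    obtain ⟨s, hs, p', hp⟩ := hp
    exact ⟨s, hs, p' * MvPolynomial.X i, by simp [hp, mul_assoc]⟩

/-- linear relations survive specialisation -/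
theorem rank_spec {k E : Type} [Field k] [Fintype E] (φ : A →+* k) (hφ : Function.Surjective φ)
    (c : E → K) (hc : c ≠ 0) : ∃ c' : E → k, c' ≠ 0 ∧
      ∀ w : E → A, ∑ e, algebraMap A K (w e) * c e = 0 → ∑ e, φ (w e) * c' e = 0 := by
  classical
  let N : Submodule k (E → k) :=
    { carrier := {w' | ∃ w : E → A, ∑ e, algebraMap A K (w e) * c e = 0 ∧ φ ∘ w = w'}
      add_mem' := by
        rintro _ _ ⟨w, h, rfl⟩ ⟨w', h', rfl⟩
        exact ⟨w + w', by simp [add_mul, Finset.sum_add_distrib, h, h'], by ext; simp⟩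
      zero_mem' := ⟨0, by simp, by ext; simp⟩
      smul_mem' := by
        rintro a _ ⟨w, h, rfl⟩
        obtain ⟨a, rfl⟩ := hφ a
        exact ⟨fun e => a * w e, by simp [mul_assoc, ← Finset.mul_sum, h], by ext; simp⟩ }
  have hN : N < ⊤ := lt_top_iff_ne_top.2 fun hN => by
    choose W h1 h2 using fun e => show (Pi.single e 1 : E → k) ∈ N from hN ▸ Submodule.mem_top
    have h3 : (Matrix.of W).det ≠ 0 := fun h => by
      have h4 : φ.mapMatrix (Matrix.of W) = 1 := by
        ext e e'
        simpa [Matrix.one_apply, Pi.single_apply, eq_comm] using congrFun (h2 e) e'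
      have := φ.map_det (Matrix.of W)
      rw [h, h4] at this
      simp at this
    refine hc (Matrix.eq_zero_of_mulVec_eq_zero
      (M := (algebraMap A K).mapMatrix (Matrix.of W)) ?_ (funext h1))
    rw [← RingHom.map_det]
    exact fun h => h3 (IsFractionRing.to_map_eq_zero_iff.1 h)
  obtain ⟨l, hl, h⟩ := N.exists_le_ker_of_lt_top hN
  refine ⟨fun e => l (Pi.single e 1), fun h0 => hl ?_, fun w hw => ?_⟩
  · exact LinearMap.pi_ext' fun e => LinearMap.ext_ring (congrFun h0 e)
  · have := LinearMap.mem_ker.1 (h ⟨w, hw, rfl⟩)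
    rw [LinearMap.pi_apply_eq_sum_univ] at this
    refine Eq.trans (Finset.sum_congr rfl fun e _ => ?_) this
    exact congrArg (φ (w e) * l ·) (funext fun j => by simp [Pi.single_apply, eq_comm])

theorem poly_spec {k σ : Type} [Field k] (φ : A →+* k) (hφ : Function.Surjective φ)
    (θ : MvPolynomial σ K) (hθ : θ ≠ 0) : ∃ θ' : MvPolynomial σ k, θ' ≠ 0 ∧ ∀ η : σ → A,
      MvPolynomial.aeval (fun l => algebraMap A K (η l)) θ = 0 →
        MvPolynomial.aeval (fun l => φ (η l)) θ' = 0 := by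
  classical
  obtain ⟨c, hc, h⟩ := rank_spec φ hφ (fun e : θ.support => θ.coeff e) fun h => hθ (by
    ext e
    by_contra he
    exact he (congrFun h ⟨e, MvPolynomial.mem_support_iff.2 he⟩))
  refine ⟨∑ e, MvPolynomial.monomial e.1 (c e), fun h0 => hc (funext fun e => ?_), fun η hη => ?_⟩
  · simpa [MvPolynomial.coeff_sum, MvPolynomial.coeff_monomial, Subtype.val_inj] using
      congrArg (MvPolynomial.coeff e.1) h0
  · have := h (fun e => e.1.prod fun l j => η l ^ j) (by
      rw [← hη]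
      conv_rhs => rw [θ.as_sum, map_sum, ← Finset.sum_coe_sort]
      simp [MvPolynomial.aeval_monomial, Finsupp.prod, mul_comm])
    simpa [MvPolynomial.aeval_monomial, Finsupp.prod, mul_comm] using this

end frac

section noeth

variable {A : Type} [CommRing A] {n d : ℕ} {y : Fin d → MvPolynomial (Fin n) A}
  {m : Fin n → (MvPolynomial (Fin d) A)[X]} {J : Ideal (MvPolynomial (Fin n) A)}

theorem int_of_monic (hm : ∀ i, (m i).Monic) (h : ∀ i, ev2 y (MvPolynomial.X i) (m i) ∈ J) :
    ((Ideal.Quotient.mk J).comp (MvPolynomial.aeval (R := A) y).toRingHom).IsIntegral := by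
  intro b
  obtain ⟨b, rfl⟩ := Ideal.Quotient.mk_surjective b
  induction b using MvPolynomial.induction_on with
  | C a =>
    simpa using RingHom.isIntegralElem_map (f := (Ideal.Quotient.mk J).comp
      (MvPolynomial.aeval (R := A) y).toRingHom) (x := MvPolynomial.C a)
  | add p q hp hq => rw [map_add]; exact hp.add _ hq
  | mul_X p i hp =>
    rw [map_mul]
    refine hp.mul _ ⟨m i, hm i, ?_⟩
    rw [← hom_eval₂]
    exact Ideal.Quotient.eq_zero_iff_mem.2 (h i)

theorem norm_mem [Nontrivial A] [J.IsPrime] (hm : ∀ i, (m i).Monic)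
    (h : ∀ i, ev2 y (MvPolynomial.X i) (m i) ∈ J) {b : MvPolynomial (Fin n) A} (hb : b ∉ J) :
    ∃ θ : MvPolynomial (Fin d) A, θ ≠ 0 ∧ ∃ w, MvPolynomial.aeval y θ - w * b ∈ J := by
  let := ((Ideal.Quotient.mk J).comp (MvPolynomial.aeval (R := A) y).toRingHom).toAlgebra
  obtain ⟨θ, h1, h2⟩ := Submodule.exists_mem_ne_zero_of_ne_bot (Ideal.comap_ne_bot_of_integral_mem
    (R := MvPolynomial (Fin d) A) (fun e => hb (Ideal.Quotient.eq_zero_iff_mem.1 e))
    (Ideal.mem_span_singleton_self _) (int_of_monic hm h _))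
  obtain ⟨w, hw⟩ := Ideal.mem_span_singleton'.1 (Ideal.mem_comap.1 h1)
  obtain ⟨w, rfl⟩ := Ideal.Quotient.mk_surjective w
  exact ⟨θ, h2, w, Ideal.Quotient.eq.1 hw.symm⟩

end noeth

end Pool.Agent.P.MP_38c95b_ag.G
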