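import Pool.Agent.P.MP_38c95b_ag.Cone

/-!
Forms without common zero on a cone can be changed off the cone into forms without common zero.
-/

set_option autoImplicit false

open Polynomial

namespace Pool.Agent.P.MP_38c95b_ag.G

theorem ext_avoid {K R : Type} [Field K] [Infinite K] [CommRing R] [Algebra K R]
    (W : Submodule K R) (F : R) (s : Finset (Ideal R)) (hs : ∀ p ∈ s, ∃ w ∈ W, w ∉ p) :
    ∃ h ∈ W, ∀ p ∈ s, F + h ∉ p := by
  classical
  induction s using Finset.induction_on with
  | empty => exact ⟨0, W.zero_mem, by simp⟩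
  | insert p s hp ih =>
    obtain ⟨h, hW, hh⟩ := ih fun q hq => hs q (Finset.mem_insert_of_mem hq)
    obtain ⟨w, hw, hwp⟩ := hs p (Finset.mem_insert_self _ _)
    have hsub : ∀ q : Ideal R, (w ∉ q ∨ F + h ∉ q) →
        {c : K | F + (h + c • w) ∈ q}.Subsingleton := by
      intro q hq c hc c' hc'
      by_contra hne
      have h1 : (c - c') • w ∈ q := by
        have := q.sub_mem hc hc'
        rwa [show F + (h + c • w) - (F + (h + c' • w)) = (c - c') • w by rw [sub_smul]; ring]
          at this
      have h2 : w ∈ q := by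
        have := q.mul_mem_left (algebraMap K R (c - c')⁻¹) h1
        rwa [← Algebra.smul_def, smul_smul, inv_mul_cancel₀ (sub_ne_zero.2 hne), one_smul] at this
      refine hq.elim (fun h3 => h3 h2) fun h3 => h3 ?_
      have := q.sub_mem hc (q.mul_mem_left (algebraMap K R c) h2)
      rwa [← Algebra.smul_def, show F + (h + c • w) - c • w = F + h by ring] at this
    have hfin : (⋃ q ∈ (insert p s : Finset (Ideal R)), {c : K | F + (h + c • w) ∈ q}).Finite :=
      Set.Finite.biUnion (Finset.finite_toSet _) fun q hq => (hsub q (by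
        rcases Finset.mem_insert.1 hq with rfl | hq
        exacts [Or.inl hwp, Or.inr (hh q hq)])).finite
    obtain ⟨c, hc⟩ := hfin.exists_notMem
    exact ⟨h + c • w, W.add_mem hW (W.smul_mem c hw), fun q hq h1 =>
      hc (Set.mem_biUnion (Finset.mem_coe.2 hq) h1)⟩

theorem ext_height {K R : Type} [Field K] [Infinite K] [CommRing R] [IsNoetherianRing R]
    [Algebra K R] (W : Submodule K R) (F : ℕ → R) (j : ℕ) :
    ∃ h : ℕ → R, (∀ i, h i ∈ W) ∧ ∀ p : Ideal R, p.IsPrime → (∀ i < j, F i + h i ∈ p) →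
      (∃ w ∈ W, w ∉ p) → (j : ℕ∞) ≤ p.height := by
  classical
  induction j with
  | zero => exact ⟨0, fun _ => W.zero_mem, fun _ _ _ _ => by simp⟩
  | succ j ih =>
    obtain ⟨h, hW, hh⟩ := ih
    let J : Ideal R := Ideal.span {x | ∃ i < j, x = F i + h i}
    have hfin := J.finite_minimalPrimes_of_isNoetherianRing R
    obtain ⟨a, ha, ha'⟩ := ext_avoid W (F j) (hfin.toFinset.filter fun p => ∃ w ∈ W, w ∉ p)
      fun p hp => (Finset.mem_filter.1 hp).2
    refine ⟨Function.update h j a, fun i => ?_, fun p hp h1 ⟨w, hw, hwp⟩ => ?_⟩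
    · rcases eq_or_ne i j with rfl | hij
      · rwa [Function.update_self]
      · rw [Function.update_of_ne hij]
        exact hW i
    · have hJ : J ≤ p := Ideal.span_le.2 (by
        rintro _ ⟨i, hi, rfl⟩
        have := h1 i (by omega)
        rwa [Function.update_of_ne hi.ne] at this)
      obtain ⟨q, hq, hqp⟩ := Ideal.exists_minimalPrimes_le hJ
      have hq1 : q.IsPrime := hq.1.1
      have hwq : ∃ w ∈ W, w ∉ q := ⟨w, hw, fun h2 => hwp (hqp h2)⟩
      have h2 := hh q hq1 (fun i hi => hq.1.2 (Ideal.subset_span ⟨i, hi, rfl⟩)) hwq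
      have h3 : q < p := lt_of_le_of_ne hqp (by
        rintro rfl
        have := h1 j (by omega)
        rw [Function.update_self] at this
        exact ha' q (Finset.mem_filter.2 ⟨hfin.mem_toFinset.2 hq, hwq⟩) this)
      have h4 := Ideal.height_add_one_le_of_lt_of_isPrime h3
      push_cast
      exact (add_le_add_left h2 1).trans h4

/-- Forms of degree `D` without nonzero common zero on the zero set of a space `W` of forms of
degree `D` agree modulo `W` with forms without nonzero common zero. -/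
theorem ext_forms {K : Type} [Field K] [Infinite K] {n D : ℕ}
    (W : Submodule K (MvPolynomial (Fin n) K)) (hW : ∀ w ∈ W, w.IsHomogeneous D)
    (F : Fin n → MvPolynomial (Fin n) K) (hF : ∀ i, (F i).IsHomogeneous D)
    (hz : ∀ x : Fin n → K, (∀ w ∈ W, MvPolynomial.eval x w = 0) →
      (∀ i, MvPolynomial.eval x (F i) = 0) → x = 0) :
    ∃ h : Fin n → MvPolynomial (Fin n) K, (∀ i, h i ∈ W) ∧
      ∀ x : Fin n → K, (∀ i, MvPolynomial.eval x (F i + h i) = 0) → x = 0 := by
  obtain ⟨h, h1, h2⟩ := ext_height W (fun i => if hi : i < n then F ⟨i, hi⟩ else 0) n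
  refine ⟨fun i => h i, fun i => h1 i, fun x hx => ?_⟩
  by_cases hxW : ∀ w ∈ W, MvPolynomial.eval x w = 0
  · exact hz x hxW fun i => by simpa [hxW _ (h1 i)] using hx i
  by_contra hx0
  push Not at hxW
  obtain ⟨w, hw, hwx⟩ := hxW
  let ψ : MvPolynomial (Fin n) K →+* K[X] := MvPolynomial.eval₂Hom C fun i => X * C (x i)
  have hψ : ∀ (t : K) (g : MvPolynomial (Fin n) K),
      (ψ g).eval t = MvPolynomial.eval (fun i => t * x i) g := fun t g => by
    induction g using MvPolynomial.induction_on with
    | C a => simp [ψ]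
    | add p q hp hq => simp [hp, hq]
    | mul_X p i hp =>
      rw [map_mul, map_mul, eval_mul, hp, MvPolynomial.eval_X]
      congr 1
      simp only [ψ, MvPolynomial.eval₂Hom_X', eval_mul, eval_X, eval_C]
  have hp : (RingHom.ker ψ).IsPrime := RingHom.ker_isPrime ψ
  have hm : (RingHom.ker (MvPolynomial.eval x)).IsPrime := RingHom.ker_isPrime _
  have hle : RingHom.ker ψ ≤ RingHom.ker (MvPolynomial.eval x) := fun g hg => by
    have := hψ 1 g
    rw [RingHom.mem_ker.1 hg] at this
    simpa using this.symm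
  have h3 := h2 (RingHom.ker ψ) hp (fun i hi => by
    rw [RingHom.mem_ker, dif_pos hi]
    refine Polynomial.funext fun t => ?_
    rw [hψ, cone_eval_smul ((hF ⟨i, hi⟩).add (hW _ (h1 i))), hx ⟨i, hi⟩]
    simp) ⟨w, hw, fun h4 => hwx (hle h4)⟩
  obtain ⟨i, hi⟩ := Function.ne_iff.1 hx0
  have h4 : RingHom.ker ψ < RingHom.ker (MvPolynomial.eval x) := lt_of_le_of_ne hle fun e => by
    have h5 : MvPolynomial.X i - MvPolynomial.C (x i) ∈ RingHom.ker ψ := by
      rw [e, RingHom.mem_ker]
      simp
    have h6 := hψ 0 (MvPolynomial.X i - MvPolynomial.C (x i))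
    rw [RingHom.mem_ker.1 h5] at h6
    exact hi (by simpa using h6)
  have h5 := (add_le_add_left h3 1).trans (Ideal.height_add_one_le_of_lt_of_isPrime h4)
  have h6 := Ideal.height_le_ringKrullDim_of_isPrime (I := RingHom.ker (MvPolynomial.eval x))
  rw [MvPolynomial.ringKrullDim_of_isNoetherianRing, ringKrullDim_eq_zero_of_field, zero_add,
    Nat.card_eq_fintype_card, Fintype.card_fin] at h6
  have h7 : (RingHom.ker (MvPolynomial.eval x)).height ≤ (n : ℕ∞) := by exact_mod_cast h6
  have h8 : ((n + 1 : ℕ) : ℕ∞) ≤ (n : ℕ∞) := by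
    push_cast
    exact h5.trans h7
  have h9 : n + 1 ≤ n := by exact_mod_cast h8
  omega

end Pool.Agent.P.MP_38c95b_ag.G
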