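import Pool.Agent.P.MP_38c95b_ag.G.Sp
import Pool.Agent.P.MP_38c95b_ag.G.Ext

/-!
Generic orbits on a cone, for forms that may have common zeros off the cone.
-/

set_option autoImplicit false

namespace Pool.Agent.P.MP_38c95b_ag.G

open MvPolynomial

theorem gen_coneK {K : Type} [Field K] [IsAlgClosed K] [CharZero K] {n q : ℕ} (hq : 2 ≤ q)
    (f : Fin n → MvPolynomial (Fin n) K)
    (hf : ∀ i, (f i).IsHomogeneous q) (S : Set (MvPolynomial (Fin n) K))
    (hS : ∀ g ∈ S, ∃ d, g.IsHomogeneous d) (C : Set (Fin n → K))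
    (hC : ∀ x, x ∈ C ↔ ∀ g ∈ S, eval x g = 0) {x₁ : Fin n → K} (hx₁ : x₁ ≠ 0) (hx₁C : x₁ ∈ C)
    (hirr : ∀ (g h : MvPolynomial (Fin n) K) (dg dh : ℕ), g.IsHomogeneous dg →
      h.IsHomogeneous dh → (∀ x ∈ C, eval x g * eval x h = 0) →
      (∀ x ∈ C, eval x g = 0) ∨ ∀ x ∈ C, eval x h = 0)
    (hinv : ∀ x ∈ C, dyn f x ∈ C) (hz : ∀ x ∈ C, dyn f x = 0 → x = 0) :
    ∃ a ∈ C, a ≠ 0 ∧ ∀ g : MvPolynomial (Fin n) K,
      {m : ℕ | eval ((dyn f)^[m] a) g = 0}.Infinite → ∀ x ∈ C, eval x g = 0 := by
  classical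
  set I : Ideal (MvPolynomial (Fin n) K) := vanishingIdeal K C with hI
  have hmem : ∀ h, h ∈ I ↔ ∀ x ∈ C, eval x h = 0 := fun h => by
    rw [hI, mem_vanishingIdeal_iff]
    simp only [aeval_eq_eval]
  have hcone : ∀ x ∈ C, ∀ t : K, (fun i => t * x i) ∈ C := by
    intro x hx t
    refine (hC _).2 fun p hp => ?_
    obtain ⟨e, he⟩ := hS p hp
    rw [cone_eval_smul he, (hC x).1 hx p hp, mul_zero]
  have h0C : (0 : Fin n → K) ∈ C := by
    have := hcone x₁ hx₁C 0
    simpa [Pi.zero_def] using this
  have hcomp : ∀ h ∈ I, ∀ e, homogeneousComponent e h ∈ I := fun h hh e =>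
    (hmem _).mpr fun x hx => cone_component_zero h x
      (fun t => (hmem h).mp hh _ (hcone x hx t)) e
  have hZ : ∀ x, x ∈ zeroLocus K I ↔ x ∈ C := fun x =>
    ⟨fun hx => (hC x).2 fun g hg => by
      simpa only [aeval_eq_eval] using hx g ((hmem g).2 fun y hy => (hC y).1 hy g hg),
    fun hx g hg => by simpa only [aeval_eq_eval] using (hmem g).1 hg x hx⟩
  have hprime : I.IsPrime := by
    let := gradedAlgebra (σ := Fin n) (R := K)
    refine Ideal.IsHomogeneous.isPrime_of_homogeneous_mem_or_mem
      (𝒜 := homogeneousSubmodule (Fin n) K) ?_ ?_ ?_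
    · intro e h hh
      have : ((DirectSum.decompose (homogeneousSubmodule (Fin n) K) h e :
          homogeneousSubmodule (Fin n) K e) : MvPolynomial (Fin n) K) =
          homogeneousComponent e h := decomposition.decompose'_apply h e
      rw [this]
      exact hcomp h hh e
    · intro htop
      have : (1 : MvPolynomial (Fin n) K) ∈ I := by rw [htop]; trivial
      simpa using (hmem 1).mp this x₁ hx₁C
    · rintro g h ⟨dg, hg⟩ ⟨dh, hh⟩ hgh
      rw [hmem, hmem]
      refine hirr g h dg dh hg hh fun x hx => ?_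
      rw [← map_mul]
      exact (hmem _).mp hgh x hx
  have hst : ∀ g : Fin n → MvPolynomial (Fin n) K, (∀ x ∈ C, dyn g x ∈ C) →
      ∀ h ∈ I, aeval g h ∈ I := by
    intro g hg h hh
    rw [hmem]
    intro x hx
    have := aeval_dyn g x h
    simp only [aeval_eq_eval] at this
    rw [this]
    exact (hmem h).mp hh _ (hg x hx)
  have hit : ∀ m, ∀ x ∈ C, (dyn f)^[m] x ∈ C := fun m x hx => by
    induction m with
    | zero => exact hx
    | succ m ih => rw [Function.iterate_succ_apply']; exact hinv _ ih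
  have hit0 : ∀ m, ∀ x ∈ C, (dyn f)^[m] x = 0 → x = 0 := fun m x hx => by
    induction m with
    | zero => exact id
    | succ m ih => rw [Function.iterate_succ_apply']; exact fun h => ih (hz _ (hit m x hx) h)
  obtain ⟨t, ht⟩ := (IsNoetherian.noetherian I : I.FG)
  set M := t.sup totalDegree + 1 with hM
  have hMD : M < q ^ M := Nat.lt_pow_self (by omega)
  let W : Submodule K (MvPolynomial (Fin n) K) :=
    homogeneousSubmodule (Fin n) K (q ^ M) ⊓ I.restrictScalars K
  have hWC : ∀ x : Fin n → K, (∀ w ∈ W, eval x w = 0) → x ∈ C := fun x hx => by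
    rcases eq_or_ne x 0 with rfl | h0
    · exact h0C
    obtain ⟨i, hi⟩ := Function.ne_iff.1 h0
    have h1 : I ≤ RingHom.ker (eval x) := by
      rw [← ht, Submodule.span_le]
      intro g hg
      have hgI : g ∈ I := ht ▸ Submodule.subset_span hg
      have hd : g.totalDegree ≤ t.sup totalDegree := Finset.le_sup (f := totalDegree) hg
      change eval x g = 0
      rw [← sum_homogeneousComponent g, map_sum]
      refine Finset.sum_eq_zero fun e he => ?_
      have he' : e ≤ q ^ M := by have := Finset.mem_range.1 he; omega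
      have h2 := hx (homogeneousComponent e g * X i ^ (q ^ M - e)) ⟨?_, ?_⟩
      · rw [map_mul, map_pow, eval_X] at h2
        exact (mul_eq_zero.1 h2).resolve_right (pow_ne_zero _ hi)
      · have := (homogeneousComponent_isHomogeneous e g).mul
          ((isHomogeneous_X K i).pow (q ^ M - e))
        rwa [one_mul, Nat.add_sub_cancel' he'] at this
      · exact I.mul_mem_right _ (hcomp g hgI e)
    exact (hZ x).1 fun g hg => by
      simpa only [aeval_eq_eval] using RingHom.mem_ker.1 (h1 hg)
  obtain ⟨h, hW, hh⟩ := ext_forms W (fun w hw => hw.1) (iter f M) (iter_isHomogeneous f hf M)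
    fun x hx h1 => hit0 M x (hWC x hx) (by
      rw [← dyn_iter]
      exact funext fun i => by simpa only [dyn, aeval_eq_eval, Pi.zero_apply] using h1 i)
  have hg : ∀ x ∈ C, dyn (fun i => iter f M i + h i) x = (dyn f)^[M] x := fun x hx => by
    rw [← dyn_iter]
    funext i
    simp only [dyn, aeval_eq_eval, map_add, (hmem _).1 (hW i).2 x hx, add_zero]
  obtain ⟨α, hα, hgen⟩ := lvK K n (q ^ M) (fun i => iter f M i + h i) I (by omega)
    (fun i => (iter_isHomogeneous f hf M i).add (hW i).1)
    (fun x hx => hh x fun i => by simpa only [aeval_eq_eval] using hx i) hprime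
    (hst _ fun x hx => hg x hx ▸ hit M x hx)
  have hαC := (hZ α).1 hα
  have hk : ∀ k, (dyn fun i => iter f M i + h i)^[k] α = (dyn f)^[M * k] α := fun k => by
    induction k with
    | zero => rfl
    | succ k ih =>
      rw [Function.iterate_succ_apply', ih, hg _ (hit _ α hαC), ← Function.iterate_add_apply,
        mul_add, mul_one, add_comm]
  have hgen' : ∀ w, {m : ℕ | aeval ((dyn f)^[m] α) w = 0}.Infinite → w ∈ I := fun w hw => by
    by_contra hwI
    have := Gn.one (M := M) (by omega) (hst f hinv) hα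
      (fun w hw => by simpa only [one_mul, hk] using hgen w hw) w hwI
    exact hw (by simpa only [one_mul] using this)
  refine ⟨α, hαC, ?_, fun g hg' => (hmem g).1 (hgen' g (by simpa only [aeval_eq_eval] using hg'))⟩
  rintro rfl
  refine hx₁ (funext fun i => ?_)
  have h0 : dyn f (0 : Fin n → K) = 0 := by
    funext j
    have := cone_eval_smul (hf j) 0 (0 : Fin n → K)
    rw [zero_pow (by omega), zero_mul] at this
    simpa [dyn, Pi.zero_def] using this
  have := (hmem _).1 (hgen' (X i) (Set.infinite_univ.mono fun m _ => by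
    simp [Function.iterate_fixed h0])) x₁ hx₁C
  simpa using this

end Pool.Agent.P.MP_38c95b_ag.G
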