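import Pool.Agent.P.MP_38c95b_ag.Val
import Pool.Agent.P.MP_38c95b_ag.Tools

/-!
The Strassmann bound for interpolated sequences, and passage from an iterate to the map.
-/

open Polynomial
open scoped NNReal

namespace Pool.Agent.P.MP_38c95b_ag.G

theorem str_aux {Ω : Type} [Field Ω] [CharZero Ω] (v : Valuation Ω ℝ≥0) (ε : ℝ≥0) (n : ℕ)
    (T : Finset ℕ) : ∀ U : Polynomial Ω, (∀ i, T.card ≤ i → v (U.coeff i) ≤ ε) →
      (∀ t ∈ T, U.eval (t : Ω) = 0) → v (U.eval (n : Ω)) ≤ ε := by
  induction T using Finset.induction_on with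
  | empty =>
    intro U h _
    rw [eval_eq_sum_range]
    refine v.map_sum_le fun i _ => ?_
    rw [map_mul, map_pow]
    exact (mul_le_of_le_one_right' (pow_le_one' (val_nat_le v n) i)).trans (h i (Nat.zero_le i))
  | insert t T ht ih =>
    intro U h h0
    have h1 : (X - C (t : Ω)) * (U /ₘ (X - C (t : Ω))) = U :=
      mul_divByMonic_eq_iff_isRoot.2 (h0 t (Finset.mem_insert_self t T))
    have h2 := ih (U /ₘ (X - C (t : Ω))) (fun i hi => ?_) fun s hs => ?_
    · rw [← h1, eval_mul, map_mul, eval_sub, eval_X, eval_C]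
      exact (mul_le_of_le_one_left' (by simpa using val_int_le v ((n : ℤ) - t))).trans h2
    · rw [coeff_divByMonic_X_sub_C]
      refine v.map_sum_le fun j hj => ?_
      rw [map_mul, map_pow]
      refine (mul_le_of_le_one_left' (pow_le_one' (val_nat_le v t) _)).trans (h j ?_)
      rw [Finset.card_insert_of_notMem ht]
      exact (Nat.succ_le_succ hi).trans (Finset.mem_Icc.1 hj).1
    · have h3 := h0 s (Finset.mem_insert_of_mem hs)
      rw [← h1, eval_mul, eval_sub, eval_X, eval_C] at h3
      exact (mul_eq_zero.1 h3).resolve_left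
        (sub_ne_zero.2 fun e => ht (Nat.cast_injective e ▸ hs))

theorem strass {Ω : Type} [Field Ω] [CharZero Ω] (v : Valuation Ω ℝ≥0) {p : ℕ} (hp : p.Prime)
    (hv : v (p : Ω) < 1) (u : ℕ → Ω) (B : ℝ≥0)
    (hB : ∀ k, v ((fwdDiff 1)^[k] u 0) ≤ B * v (p : Ω) ^ (3 * k))
    (hT : {n | u n = 0}.Infinite) (n : ℕ) : u n = 0 := by
  have hw0 : v (p : Ω) ≠ 0 := by simpa using hp.ne_zero
  have key : ∀ L, v (u n) ≤ B * v (p : Ω) ^ L := fun L => by
    obtain ⟨T, hT, rfl⟩ := hT.exists_subset_card_eq L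
    set K := n + T.sup id + 1
    set U : Polynomial Ω := ∑ k ∈ Finset.range K,
      C ((fwdDiff 1)^[k] u 0 / (k.factorial : Ω)) * descPochhammer Ω k with hU
    have h1 : ∀ m : ℕ, m < K → U.eval (m : Ω) = u m := fun m hm => by
      have := shift_eq_sum_fwdDiff_iter 1 u m 0
      rw [zero_add, smul_eq_mul, mul_one] at this
      rw [this, Finset.sum_subset (Finset.range_subset_range.2 hm) fun k _ hk => by
        rw [Nat.choose_eq_zero_of_lt (by simpa using hk), zero_smul], hU, eval_finsetSum]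
      refine Finset.sum_congr rfl fun k _ => ?_
      have hk : (k.factorial : Ω) ≠ 0 := by exact_mod_cast k.factorial_ne_zero
      rw [eval_mul, eval_C, descPochhammer_eval_eq_descFactorial,
        Nat.descFactorial_eq_factorial_mul_choose, nsmul_eq_mul]
      push_cast
      field_simp
    rw [← h1 n (by omega)]
    refine str_aux v _ n T U (fun i hi => ?_) fun t ht =>
      (h1 t (by have := Finset.le_sup (f := id) ht; simp only [id] at this; omega)).trans (hT ht)
    rw [hU, finsetSum_coeff]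
    refine v.map_sum_le fun k _ => ?_
    rw [coeff_C_mul, map_mul]
    by_cases hk : k < i
    · rw [coeff_eq_zero_of_natDegree_lt (by rwa [descPochhammer_natDegree])]
      simp
    rw [← descPochhammer_map (Int.castRingHom Ω), coeff_map, map_div₀]
    refine (mul_le_of_le_one_right' (val_int_le v _)).trans ?_
    refine (div_le_div₀ zero_le (hB k) (pow_pos (pos_iff_ne_zero.2 hw0) k)
      (val_factorial v hp hv k)).trans ?_
    rw [show 3 * k = 2 * k + k by ring, pow_add, ← mul_assoc,
      mul_div_cancel_right₀ _ (pow_ne_zero _ hw0)]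
    exact mul_le_mul_right (pow_le_pow_right_of_le_one' hv.le (by omega)) B
  have hlim : Filter.Tendsto (fun K : ℕ => B * v (p : Ω) ^ K) Filter.atTop (nhds (B * 0)) :=
    (NNReal.tendsto_pow_atTop_nhds_zero_of_lt_one hv).const_mul B
  simpa using ge_of_tendsto' hlim key

/-- every infinite part of the orbit of `α` is dense in the zero set of `I` -/
def Gn {K : Type} [Field K] {n : ℕ} (f : Fin n → MvPolynomial (Fin n) K)
    (I : Ideal (MvPolynomial (Fin n) K)) (M : ℕ) (α : Fin n → K) : Prop :=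
  ∀ h ∉ I, {m | MvPolynomial.aeval ((dyn f)^[M * m] α) h = 0}.Finite

theorem Gn.one {K : Type} [Field K] {n M : ℕ} {f : Fin n → MvPolynomial (Fin n) K}
    {I : Ideal (MvPolynomial (Fin n) K)} {α : Fin n → K} (hM : 1 ≤ M)
    (hs : ∀ h ∈ I, MvPolynomial.aeval f h ∈ I) (hα : α ∈ MvPolynomial.zeroLocus K I)
    (H : Gn f I M α) : Gn f I 1 α := fun h hh => by
  have h1 : ∀ r, {m | MvPolynomial.aeval ((dyn f)^[r + M * m] α) h = 0}.Finite := fun r => by
    simp only [Function.iterate_add_apply, ← aeval_dyn_iterate f r]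
    refine H _ fun hr => (Set.Ici_infinite r) ((H h hh).subset fun m hm => ?_)
    have h2 : r ≤ M * m := le_trans hm (Nat.le_mul_of_pos_left m hM)
    have := iterate_mem_zeroLocus hs (M * m - r) hα _ hr
    rwa [aeval_dyn_iterate, ← Function.iterate_add_apply, Nat.add_sub_cancel' h2] at this
  refine ((Set.finite_lt_nat M).biUnion fun r _ => (h1 r).image (r + M * ·)).subset fun m hm => ?_
  refine Set.mem_biUnion (Nat.mod_lt m hM) ⟨m / M, ?_, Nat.mod_add_div m M⟩
  simpa [Nat.mod_add_div] using hm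

/-- The statement on affine space over the field `K`. -/
def Lv (K : Type) [Field K] : Prop :=
  ∀ (n q : ℕ) (f : Fin n → MvPolynomial (Fin n) K) (I : Ideal (MvPolynomial (Fin n) K)),
    2 ≤ q → (∀ i, (f i).IsHomogeneous q) →
    (∀ x : Fin n → K, (∀ i, MvPolynomial.aeval x (f i) = 0) → x = 0) →
    I.IsPrime → (∀ h ∈ I, MvPolynomial.aeval f h ∈ I) →
    ∃ α ∈ MvPolynomial.zeroLocus K I, Gn f I 1 α

end Pool.Agent.P.MP_38c95b_ag.G
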