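import Pool.Agent.P.MP_38c95b_ag.Final
import Pool.Agent.P.MP_38c95b_ag.G.Str

/-!
The generic orbit theorem over the algebraic numbers: the assembly of `Main` with the stronger
conclusion.
-/

open Polynomial
open scoped NNReal

namespace Pool.Agent.P.MP_38c95b_ag.G

theorem lv_of (hInterp : S_Interp) (hLocal : S_Local) (hUnr : S_Unr) (hNorm : S_Norm)
    (hDB : S_DBound) (hFin : S_Fin) (hSetup : S_Setup) (hPer : S_Periodic) (hBig : S_Big) :
    Lv Qb := by
  classical
  intro n q f I hq hf hz hI hstab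
  have hNS : MvPolynomial.vanishingIdeal Qb (MvPolynomial.zeroLocus Qb I) = I :=
    MvPolynomial.IsPrime.vanishingIdeal_zeroLocus I
  by_cases htwo : ∃ x₁ ∈ MvPolynomial.zeroLocus Qb I, ∃ x₂ ∈ MvPolynomial.zeroLocus Qb I, x₁ ≠ x₂
  swap
  · push Not at htwo
    have hne : (MvPolynomial.zeroLocus Qb I).Nonempty := by
      by_contra hemp
      rw [Set.not_nonempty_iff_eq_empty] at hemp
      rw [hemp, MvPolynomial.vanishingIdeal_empty] at hNS
      exact hI.ne_top hNS.symm
    obtain ⟨α, hα⟩ := hne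
    refine ⟨α, hα, fun h hh => Set.finite_empty.subset fun k hk => hh ?_⟩
    rw [← hNS]
    intro x hx
    rw [htwo x hx _ (iterate_mem_zeroLocus hstab (1 * k) hα)]
    exact hk
  obtain ⟨d, y, r, P, r₀, c, m, Pi, geo⟩ := hSetup n q f I (by omega) hf
    (pow_mem_span_of_zero f hz) hI hstab htwo
  obtain ⟨p, v, hp, hvp, hres, hfI, hyI, hPiI, x₀, hx₀, hx₀I, hunit, hper⟩ :=
    hPer n d f I y r P r₀ c m Pi geo
  have hp1 : (1 : ℝ≥0) < p := by exact_mod_cast hp.one_lt
  have hvp0 : 0 < v (p : Qb) := by rw [hvp]; exact inv_pos.mpr (zero_lt_one.trans hp1)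
  have hvp1 : v (p : Qb) < 1 := by rw [hvp]; exact inv_lt_one_of_one_lt₀ hp1
  have hrel : ∀ x ∈ MvPolynomial.zeroLocus Qb I, ∀ i,
      ev2 (fun l => MvPolynomial.aeval (dyn f x) (y l)) (x i) (Pi i) = 0 := by
    intro x hx i
    have := hx _ (geo.Pi_mem i)
    rw [map_ev2] at this
    simpa only [aeval_dyn, MvPolynomial.aeval_X] using this
  obtain ⟨η, n₀, hη0, hη1, hn₀, hloc⟩ := hLocal Qb v p hp hvp0 hvp1 hres n (d + 1) f y Pi
    (MvPolynomial.zeroLocus Qb I) hfI hyI hPiI (fun x hx => dyn_mem_zeroLocus hstab hx) hrel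
    x₀ hx₀ hx₀I hunit hper
  obtain ⟨j, s, α, τ, b, hj, hα, hclose, hs, hτf, hτβ, hinj⟩ :=
    hBig n d f I y r P r₀ c m Pi geo q hq hf hz p v hp hvp x₀ hx₀
      (fun j i h0 => by have := hunit j i; rw [h0, map_zero] at this; exact zero_ne_one this)
      η n₀ hη0 hn₀
  set M := n₀ * j with hM
  have hM1 : 1 ≤ M := Nat.mul_pos hn₀ hj
  refine ⟨α, hα, Gn.one hM1 hstab hα fun h hhI => ?_⟩
  by_contra hh
  -- the orbit under the iterate
  set orb : ℕ → Fin n → Qb := fun k => (dyn f)^[M * k] α with horb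
  have hseq : ∀ w : MvPolynomial (Fin n) Qb,
      (∀ K₀ : ℕ, ∃ T : Finset ℕ, K₀ ≤ T.card ∧ ∀ i ∈ T, i < 2 * T.card ∧
        MvPolynomial.aeval (orb i) w = 0) → ∀ k, MvPolynomial.aeval (orb k) w = 0 := by
    intro w hw
    obtain ⟨B, hB⟩ := hloc j α hα hclose w
    exact hInterp Qb v p hp hvp1 (fun k => MvPolynomial.aeval (orb k) w) B hB hw
  set J : Ideal (MvPolynomial (Fin n) Qb) := MvPolynomial.vanishingIdeal Qb (Set.range orb)
    with hJ
  have hmemJ : ∀ w, w ∈ J ↔ ∀ k, MvPolynomial.aeval (orb k) w = 0 := by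
    intro w
    rw [hJ, MvPolynomial.mem_vanishingIdeal_iff]
    simp
  have htail : ∀ w, (∀ k, MvPolynomial.aeval (orb (k + 1)) w = 0) → w ∈ J := fun w hw =>
    (hmemJ w).mpr (main_tail_zero _ (hseq w) hw)
  have horbJ : ∀ k, orb k ∈ MvPolynomial.zeroLocus Qb J := fun k w hw => (hmemJ w).mp hw k
  have hJprime : J.IsPrime := by
    refine ⟨fun htop => ?_, fun {a b} hab => ?_⟩
    · have : (1 : MvPolynomial (Fin n) Qb) ∈ J := by rw [htop]; trivial
      simpa using (hmemJ 1).mp this 0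
    · rw [hmemJ, hmemJ]
      refine main_prod_zero _ _ (hseq a) (hseq b) fun k => ?_
      rw [← map_mul]
      exact (hmemJ _).mp hab k
  have hIJ : I ≤ J := fun w hw => (hmemJ w).mpr fun k => iterate_mem_zeroLocus hstab _ hα w hw
  have hhJ : h ∈ J := (hmemJ h).mpr
    (let ⟨B, hB⟩ := hloc j α hα hclose h; strass v hp hvp1 _ B hB hh)
  have horb_succ : ∀ k, dyn (iter f M) (orb k) = orb (k + 1) := by
    intro k
    rw [dyn_iter, horb]
    simp only
    rw [← Function.iterate_add_apply, mul_add, mul_one, add_comm]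
  have hJstab : ∀ w ∈ J, MvPolynomial.aeval (iter f M) w ∈ J := by
    intro w hw
    rw [hmemJ]
    intro k
    rw [aeval_dyn, horb_succ]
    exact (hmemJ w).mp hw _
  have hpowk : ∀ (i k : ℕ) (w : MvPolynomial (Fin n) Qb), MvPolynomial.aeval (orb k)
      (((MvPolynomial.aeval (iter f M) : MvPolynomial (Fin n) Qb →ₐ[Qb]
        MvPolynomial (Fin n) Qb) ^ i) w) = MvPolynomial.aeval (orb (k + i)) w := by
    intro i k w
    rw [aeval_dyn_iterate]
    congr 2
    induction i with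
    | zero => rfl
    | succ i ih => rw [Function.iterate_succ_apply', ih, horb_succ, add_assoc]
  have := Ideal.Quotient.isDomain J
  have := Ideal.Quotient.isDomain I
  set φ := qEnd J (iter f M) hJstab with hφ
  have hφinj : Function.Injective φ := by
    rw [injective_iff_map_eq_zero]
    intro a ha
    obtain ⟨w, rfl⟩ := Ideal.Quotient.mkₐ_surjective Qb J a
    rw [hφ, qEnd_mk] at ha
    have ha' := Ideal.Quotient.eq_zero_iff_mem.mp ha
    refine Ideal.Quotient.eq_zero_iff_mem.mpr (htail w fun k => ?_)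
    rw [← horb_succ, ← aeval_dyn]
    exact (hmemJ _).mp ha' k
  have hQ1 : 1 ≤ q ^ M := Nat.one_le_pow _ _ (by omega)
  have hφx : ∀ i, φ (Ideal.Quotient.mkₐ Qb J (MvPolynomial.X i)) =
      MvPolynomial.aeval (fun i => Ideal.Quotient.mkₐ Qb J (MvPolynomial.X i)) (iter f M i) := by
    intro i
    rw [hφ, qEnd_mk, ← MvPolynomial.comp_aeval_apply, MvPolynomial.aeval_X,
      MvPolynomial.aeval_X_left_apply]
  have hφfin : φ.Finite := hFin Qb _ n (q ^ M) _ (iter f M) φ (main_adjoin_mk J) hQ1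
    (iter_isHomogeneous f hf M) (pow_mem_span_iter f hz M) hφx
  set β := qPt J (orb 1) (horbJ 1) with hβ
  have hβpow : ∀ (i : ℕ) (w : MvPolynomial (Fin n) Qb),
      β ((φ ^ i) (Ideal.Quotient.mkₐ Qb J w)) = MvPolynomial.aeval (orb (1 + i)) w := by
    intro i w
    rw [hφ, qEnd_pow_mk, hβ, qPt_mk, hpowk]
  have hdense : ∀ a, a ≠ 0 → ∃ i : ℕ, β ((φ ^ i) a) ≠ 0 := by
    intro a ha
    obtain ⟨w, rfl⟩ := Ideal.Quotient.mkₐ_surjective Qb J a
    by_contra hcon
    push Not at hcon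
    refine ha (Ideal.Quotient.eq_zero_iff_mem.mpr (htail w fun k => ?_))
    rw [add_comm, ← hβpow]
    exact hcon k
  -- units along the orbit of `α`
  have hαI : ∀ i, v (α i) ≤ 1 := fun i => by
    have : α i = (α i - x₀ i) + x₀ i := by ring
    rw [this]
    exact v.map_add_le ((hclose i).trans hη1.le) (hx₀I i)
  have hunitα : ∀ (k : ℕ) (i : Fin n),
      ev2 (fun l => MvPolynomial.aeval (dyn f ((dyn f)^[k] α)) (y l))
        (((dyn f)^[k] α) i) (derivative (Pi i)) ≠ 0 := by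
    intro k i h0
    have c1 := iterate_cong v hfI α x₀ hαI hx₀I hclose k
    have c2 := iterate_cong v hfI α x₀ hαI hx₀I hclose (k + 1)
    rw [Function.iterate_succ_apply', Function.iterate_succ_apply'] at c2
    have c3 := (ev2_cong v (Int2_derivative v (hPiI i))
      (fun l => MvPolynomial.aeval (dyn f ((dyn f)^[k] α)) (y l))
      (fun l => MvPolynomial.aeval (dyn f ((dyn f)^[k] x₀)) (y l)) _ _
      (fun l => (aeval_cong v (hyI l) _ _ c2.1 c2.2.1 c2.2.2).1)
      (fun l => (aeval_cong v (η := 0) (hyI l) _ _ c2.2.1 c2.2.1 (by simp)).1)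
      (fun l => (aeval_cong v (hyI l) _ _ c2.1 c2.2.1 c2.2.2).2)
      (c1.1 i) (c1.2.1 i) (c1.2.2 i)).2
    rw [h0, zero_sub, Valuation.map_neg, hunit] at c3
    exact absurd (c3.trans_lt hη1) (lt_irrefl _)
  set π : (MvPolynomial (Fin n) Qb ⧸ I) →ₐ[Qb] (MvPolynomial (Fin n) Qb ⧸ J) :=
    Ideal.Quotient.factorₐ Qb hIJ with hπ
  have hπmk : ∀ w, π (Ideal.Quotient.mkₐ Qb I w) = Ideal.Quotient.mkₐ Qb J w := fun w => rfl
  have hunr : ∀ i : ℕ, ∃ e, β e ≠ 0 ∧ ∀ b, β b = 0 →
      e * b ∈ Ideal.span {c | ∃ a, β ((φ ^ i) a) = 0 ∧ c = (φ ^ i) a} := by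
    intro i
    rcases Nat.eq_zero_or_pos i with rfl | hi
    · exact ⟨1, by simp, fun b hb => Ideal.subset_span ⟨b, by simpa using hb, by simp⟩⟩
    have horb1 : orb 1 ∈ MvPolynomial.zeroLocus Qb I := iterate_mem_zeroLocus hstab _ hα
    obtain ⟨k, hk⟩ : ∃ k, M * i = k + 1 := ⟨M * i - 1, by have := Nat.mul_pos hM1 hi; omega⟩
    obtain ⟨e, he, hes⟩ := hUnr Qb (MvPolynomial (Fin n) Qb ⧸ I) n (d + 1)
      (fun i => Ideal.Quotient.mkₐ Qb I (MvPolynomial.X i))
      (fun l => Ideal.Quotient.mkₐ Qb I (y l)) (qEnd I f hstab) Pi (main_adjoin_mk I)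
      (fun i => by
        simp only [qEnd_mk]
        rw [← map_ev2]
        exact Ideal.Quotient.eq_zero_iff_mem.mpr (geo.Pi_mem i))
      k (qPt I (orb 1) horb1)
      (fun j' i => by
        simp only [qEnd_mk]
        rw [← map_ev2, qEnd_pow_mk, qPt_mk, aeval_dyn_iterate, map_ev2]
        simp only [aeval_dyn, MvPolynomial.aeval_X, horb]
        rw [← Function.iterate_add_apply]
        exact hunitα _ i)
    have hβπ : ∀ a, β (π a) = qPt I (orb 1) horb1 a := by
      intro a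
      obtain ⟨w, rfl⟩ := Ideal.Quotient.mkₐ_surjective Qb I a
      rfl
    refine ⟨π e, by rw [hβπ]; exact he, fun b hb => ?_⟩
    obtain ⟨w, rfl⟩ := Ideal.Quotient.mkₐ_surjective Qb J b
    rw [← hπmk] at hb ⊢
    rw [hβπ] at hb
    have h1 := Ideal.mem_map_of_mem π (hes _ hb)
    rw [map_mul, Ideal.map_span] at h1
    refine Ideal.span_mono ?_ h1
    rintro _ ⟨_, ⟨l, rfl⟩, rfl⟩
    have hpw : ((MvPolynomial.aeval (iter f M) : MvPolynomial (Fin n) Qb →ₐ[Qb]
        MvPolynomial (Fin n) Qb) ^ i) = (MvPolynomial.aeval f : MvPolynomial (Fin n) Qb →ₐ[Qb]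
        MvPolynomial (Fin n) Qb) ^ (k + 1) := by
      rw [aeval_iter, ← pow_mul, hk]
    have hval : π (((qEnd I f hstab) ^ (k + 1)) (Ideal.Quotient.mkₐ Qb I (y l))) =
        (φ ^ i) (Ideal.Quotient.mkₐ Qb J (y l)) := by
      rw [qEnd_pow_mk, hπmk, hφ, qEnd_pow_mk, hpw]
    refine ⟨Ideal.Quotient.mkₐ Qb J (y l) - algebraMap Qb _
      (β ((φ ^ i) (Ideal.Quotient.mkₐ Qb J (y l)))), ?_, ?_⟩
    · rw [map_sub, map_sub, AlgHom.commutes, AlgHom.commutes]
      simp
    · simp only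
      rw [map_sub, map_sub, AlgHom.commutes, AlgHom.commutes, hval, ← hβπ, hval]
  -- the conjugate points
  have hτorb : ∀ t k i, τ t (orb (k + 1) i) = orb (k + 1) i := by
    intro t k i
    have h1 : orb (k + 1) = (dyn f)^[M * k] ((dyn f)^[M] α) := by
      rw [horb]
      simp only
      rw [← Function.iterate_add_apply, mul_add, mul_one]
    have h2 := main_aut_iterate (τ t) f (hτf t) ((dyn f)^[M] α) (M * k)
    rw [funext (hτβ t)] at h2
    rw [h1]
    exact (congrFun h2 i).symm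
  have hαt : ∀ t, (fun i => τ t (α i)) ∈ MvPolynomial.zeroLocus Qb J := by
    intro t w hw
    have hw' : MvPolynomial.map (τ t).symm.toRingHom w ∈ J := by
      refine htail _ fun k => ?_
      apply (τ t).injective
      rw [main_aut_aeval, MvPolynomial.map_map, funext (hτorb t k)]
      simpa using (hmemJ w).mp hw (k + 1)
    have h0 := (hmemJ _).mp hw' 0
    have h1 := congrArg (τ t) h0
    rw [main_aut_aeval, MvPolynomial.map_map] at h1
    simpa [horb] using h1
  have hind := hNorm Qb (MvPolynomial (Fin n) Qb ⧸ J) φ hφinj hφfin β hdense hunr s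
    (fun t => qPt J _ (hαt t)) (Ideal.Quotient.mkₐ Qb J b)
    (fun t => by
      refine AlgHom.ext fun a => ?_
      obtain ⟨w, rfl⟩ := Ideal.Quotient.mkₐ_surjective Qb J a
      rw [AlgHom.comp_apply, hφ, qEnd_mk, qPt_mk, hβ, qPt_mk, aeval_dyn, dyn_iter,
        main_aut_iterate (τ t) f (hτf t), funext (hτβ t)]
      simp [horb])
    hinj
  have hfinY := main_finite_of_monic (K := Qb)
    (fun i => Ideal.Quotient.mkₐ Qb I (MvPolynomial.X i))
    (fun l => Ideal.Quotient.mkₐ Qb I (y l)) (main_adjoin_mk I) m geo.m_monic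
    (fun i => by
      rw [← map_ev2]
      exact Ideal.Quotient.eq_zero_iff_mem.mpr (geo.m_mem i))
  have hle := hDB Qb (MvPolynomial (Fin n) Qb ⧸ I) (MvPolynomial (Fin n) Qb ⧸ J) n d (q ^ M)
    (fun i => Ideal.Quotient.mkₐ Qb I (MvPolynomial.X i))
    (fun l => Ideal.Quotient.mkₐ Qb I (y l)) (main_adjoin_mk I) hfinY π
    (fun a => by
      obtain ⟨w, rfl⟩ := Ideal.Quotient.mkₐ_surjective Qb J a
      exact ⟨_, hπmk w⟩)
    (fun hinjπ => hhI (Ideal.Quotient.eq_zero_iff_mem.mp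
      ((injective_iff_map_eq_zero π).mp hinjπ (Ideal.Quotient.mkₐ Qb I h)
        (Ideal.Quotient.eq_zero_iff_mem.mpr hhJ))))
    φ (iter f M) hQ1 (fun i => (iter_isHomogeneous f hf M i).totalDegree_le) hφx s _ hind
  omega

theorem lvQ : Lv Qb :=
  lv_of interp localDyn unr (norm etale) (dbound box) (fin homfin)
    (setup (fin homfin) unr (prim etale))
    (periodic val (noeth br brind spec) red (step low (mult box) (lamind br brind) up) near)
    (big (fin homfin) (rho homfin) unr (prim etale) (hilb br brind spec (spr near liou)))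

end Pool.Agent.P.MP_38c95b_ag.G
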