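import Pool.Agent.P.MP_38c95b_ag.G.Cm
import Pool.Agent.P.MP_38c95b_ag.G.Q0

/-!
From the algebraic numbers to any algebraically closed field of characteristic zero.
-/

open Polynomial hiding aeval funext

namespace Pool.Agent.P.MP_38c95b_ag.G

open MvPolynomial (aeval zeroLocus)

section pts

variable {A : Type} (K : Type) [CommRing A] [IsDomain A] [IsIntegrallyClosed A] [Field K]
  [IsAlgClosed K] [Algebra A K] [IsFractionRing A K] {n d : ℕ}
  {y : Fin d → MvPolynomial (Fin n) A} {m : Fin n → (MvPolynomial (Fin d) A)[X]}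
  {J : Ideal (MvPolynomial (Fin n) A)}

include K

theorem pt_of_prime [J.IsPrime] (hm : ∀ i, (m i).Monic)
    (h : ∀ i, ev2 y (MvPolynomial.X i) (m i) ∈ J) (η : Fin d → A)
    (hJ : ∀ θ, aeval (R := A) y θ ∈ J ↔ aeval η θ = 0) : ∃ a : Fin n → A,
      (∀ i, MvPolynomial.X i - MvPolynomial.C (a i) ∈ J) ∧ (∀ l, aeval a (y l) = η l) ∧
        ∀ w ∈ J, aeval a w = 0 := by
  have h1 : ∀ l, y l - MvPolynomial.C (η l) ∈ J := fun l => by
    have := (hJ (MvPolynomial.X l - MvPolynomial.C (η l))).2 (by simp)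
    rwa [map_sub, MvPolynomial.aeval_X, MvPolynomial.aeval_C] at this
  choose a ha using fun i => root_mem (K := K) (Ideal.Quotient.mkₐ A J (MvPolynomial.X i))
    ((m i).map (aeval (R := A) η).toRingHom) ((hm i).map _) (by
      have h2 := Ideal.Quotient.eq_zero_iff_mem.2 (h i)
      rw [← Ideal.Quotient.mkₐ_eq_mk A, map_ev2] at h2
      rw [← h2, Polynomial.aeval_def, eval₂_map, ev2, coe_eval₂RingHom]
      congr 1
      refine MvPolynomial.ringHom_ext (fun r => by simp) fun l => ?_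
      simpa [← Ideal.Quotient.mk_algebraMap] using (Ideal.Quotient.eq.2 (h1 l)).symm)
  have h2 : ∀ w, w - MvPolynomial.C (aeval a w) ∈ J := fun w => Ideal.Quotient.eq.1
    (DFunLike.congr_fun (show Ideal.Quotient.mkₐ A J = (Algebra.ofId A _).comp (aeval a) from
      MvPolynomial.algHom_ext fun i => by simpa using (ha i).symm) w)
  have h3 : ∀ w ∈ J, aeval a w = 0 := fun w hw => by
    simpa using (hJ (MvPolynomial.C (aeval a w))).1 (by simpa using J.sub_mem hw (h2 w))
  exact ⟨a, fun i => by simpa using h2 (MvPolynomial.X i),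
    fun l => sub_eq_zero.1 (by simpa using h3 _ (h1 l)), h3⟩

theorem surj_pt (hm : ∀ i, (m i).Monic) (h : ∀ i, ev2 y (MvPolynomial.X i) (m i) ∈ J)
    (hi : ∀ θ, aeval (R := A) y θ ∈ J → θ = 0) (η : Fin d → A) :
    ∃ a : Fin n → A, (∀ l, aeval a (y l) = η l) ∧ ∀ w ∈ J, aeval a w = 0 := by
  let := ((Ideal.Quotient.mk J).comp (aeval (R := A) y).toRingHom).toAlgebra
  have : Algebra.IsIntegral (MvPolynomial (Fin d) A) (MvPolynomial (Fin n) A ⧸ J) :=
    ⟨int_of_monic hm h⟩
  have := RingHom.ker_isPrime (aeval (R := A) η)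
  obtain ⟨Q, -, hQ, e⟩ := Ideal.exists_ideal_over_prime_of_isIntegral
    (S := MvPolynomial (Fin n) A ⧸ J) (RingHom.ker (aeval (R := A) η)) ⊥ fun θ hθ => by
      rw [hi θ (Ideal.Quotient.eq_zero_iff_mem.1 hθ)]; exact zero_mem _
  have h0 : J ≤ Q.comap (Ideal.Quotient.mk J) := fun w hw => by
    rw [Ideal.mem_comap, Ideal.Quotient.eq_zero_iff_mem.2 hw]; exact zero_mem _
  obtain ⟨a, -, h1, h2⟩ := pt_of_prime K (J := Q.comap (Ideal.Quotient.mk J)) hm
    (fun i => h0 (h i)) η fun θ => SetLike.ext_iff.1 e θ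
  exact ⟨a, h1, fun w hw => h2 w (h0 hw)⟩

theorem lift_pt [J.IsPrime] (hm : ∀ i, (m i).Monic) (h : ∀ i, ev2 y (MvPolynomial.X i) (m i) ∈ J)
    (hi : ∀ θ, aeval (R := A) y θ ∈ J → θ = 0) {k : Type} [Field k] (φ : A →+* k)
    (hφ : Function.Surjective φ) (b : Fin n → k) (hb : ∀ w ∈ J, aeval b (w.map φ) = 0) :
    ∃ a : Fin n → A, (∀ i, φ (a i) = b i) ∧ ∀ w ∈ J, aeval a w = 0 := by
  let := ((Ideal.Quotient.mk J).comp (aeval (R := A) y).toRingHom).toAlgebra
  have : Algebra.IsIntegral (MvPolynomial (Fin d) A) (MvPolynomial (Fin n) A ⧸ J) :=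
    ⟨int_of_monic hm h⟩
  have : FaithfulSMul (MvPolynomial (Fin d) A) (MvPolynomial (Fin n) A ⧸ J) :=
    (faithfulSMul_iff_algebraMap_injective _ _).2 ((injective_iff_map_eq_zero _).2 fun θ hθ =>
      hi θ (Ideal.Quotient.eq_zero_iff_mem.1 hθ))
  have := icl_mv A d
  let ψ := Ideal.Quotient.lift J ((aeval (R := k) b).toRingHom.comp (MvPolynomial.map φ)) hb
  choose η hη using fun l => hφ (aeval b ((y l).map φ))
  have := RingHom.ker_isPrime ψ
  have := RingHom.ker_isPrime (aeval (R := A) η)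
  obtain ⟨Q, h1, hQ, e⟩ := Ideal.exists_ideal_le_liesOver_of_le
    (p := RingHom.ker (aeval (R := A) η)) (q := (RingHom.ker ψ).under _) (RingHom.ker ψ)
    fun θ hθ => by
      have h2 : ψ.comp (algebraMap (MvPolynomial (Fin d) A) _) =
          φ.comp (aeval (R := A) η).toRingHom :=
        MvPolynomial.ringHom_ext (fun r => by simp [ψ, RingHom.algebraMap_toAlgebra])
          fun l => by simp [ψ, RingHom.algebraMap_toAlgebra, hη]
      exact (DFunLike.congr_fun h2 θ).trans
        ((congrArg φ (RingHom.mem_ker.1 hθ)).trans (map_zero φ))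
  have h0 : J ≤ Q.comap (Ideal.Quotient.mk J) := fun w hw => by
    rw [Ideal.mem_comap, Ideal.Quotient.eq_zero_iff_mem.2 hw]; exact zero_mem _
  obtain ⟨a, h2, -, h3⟩ := pt_of_prime K (J := Q.comap (Ideal.Quotient.mk J)) hm
    (fun i => h0 (h i)) η fun θ => (SetLike.ext_iff.1 e.over θ).symm
  refine ⟨a, fun i => (sub_eq_zero.1 ?_).symm, fun w hw => h3 w (h0 hw)⟩
  simpa [ψ] using RingHom.mem_ker.1 (h1 (h2 i))

end pts

/-- a periodic component of full dimension -/
theorem exists_comp {k : Type} [Field k] {n d q : ℕ} {y : Fin d → MvPolynomial (Fin n) k}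
    {m : Fin n → (MvPolynomial (Fin d) k)[X]} {I : Ideal (MvPolynomial (Fin n) k)}
    {f : Fin n → MvPolynomial (Fin n) k} (hq : 1 ≤ q) (hf : ∀ i, (f i).IsHomogeneous q)
    (hz : ∀ i, ∃ a : ℕ, MvPolynomial.X i ^ a ∈ Ideal.span (Set.range f))
    (hs : ∀ w ∈ I, aeval f w ∈ I) (hm : ∀ i, (m i).Monic)
    (h : ∀ i, ev2 y (MvPolynomial.X i) (m i) ∈ I)
    (hi : ∀ θ, aeval (R := k) y θ ∈ I → θ = 0) :
    ∃ (P : Ideal (MvPolynomial (Fin n) k)) (M : ℕ), 1 ≤ M ∧ P.IsPrime ∧ I ≤ P ∧
      (∀ θ, aeval (R := k) y θ ∈ P → θ = 0) ∧ ∀ w ∈ P, aeval (iter f M) w ∈ P := by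
  let W := {P : Ideal (MvPolynomial (Fin n) k) | P.IsPrime ∧ I ≤ P ∧
    ∀ θ, aeval (R := k) y θ ∈ P → θ = 0}
  have hfin : W.Finite := (Ideal.finite_minimalPrimes_of_isNoetherianRing _ I).subset
    fun P hP => ⟨⟨hP.1, hP.2.1⟩, fun P' hP' hle b hb => by
      by_contra hb'
      have := hP'.1
      obtain ⟨θ, h1, w, h2⟩ := norm_mem hm (fun i => hP'.2 (h i)) hb'
      exact h1 (hP.2.2 θ (by simpa using P.add_mem (hle h2) (P.mul_mem_left w hb)))⟩
  obtain ⟨P₀, hP₀⟩ : W.Nonempty := by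
    let := ((Ideal.Quotient.mk I).comp (aeval (R := k) y).toRingHom).toAlgebra
    have : Algebra.IsIntegral (MvPolynomial (Fin d) k) (MvPolynomial (Fin n) k ⧸ I) :=
      ⟨int_of_monic hm h⟩
    obtain ⟨Q, -, hQ, e⟩ := Ideal.exists_ideal_over_prime_of_isIntegral
      (S := MvPolynomial (Fin n) k ⧸ I) (⊥ : Ideal (MvPolynomial (Fin d) k)) ⊥ fun θ hθ =>
        hi θ (Ideal.Quotient.eq_zero_iff_mem.1 hθ)
    refine ⟨Q.comap (Ideal.Quotient.mk I), inferInstance, fun w hw => ?_,
      fun θ hθ => (SetLike.ext_iff.1 e θ).1 hθ⟩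
    rw [Ideal.mem_comap, Ideal.Quotient.eq_zero_iff_mem.2 hw]; exact zero_mem _
  have hst : ∀ P ∈ W, P.comap (aeval (R := k) f) ∈ W := fun P hP => by
    have := hP.1
    refine ⟨inferInstance, fun w hw => hP.2.1 (hs w hw), fun θ hθ => ?_⟩
    have e : ∀ (u : Fin d → MvPolynomial (Fin n) k) (θ : MvPolynomial (Fin d) k),
        aeval (fun l => Ideal.Quotient.mkₐ k P (u l)) θ = 0 ↔ aeval u θ ∈ P := fun u θ => by
      rw [← MvPolynomial.comp_aeval_apply]; exact Ideal.Quotient.eq_zero_iff_mem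
    have h1 : (qEnd I f hs).Finite := fin homfin k _ n q _ f _ (main_adjoin_mk I) hq hf hz
      fun i => by rw [qEnd_mk, ← MvPolynomial.comp_aeval_apply, MvPolynomial.aeval_X,
        MvPolynomial.aeval_X_left_apply]
    have h2 := main_finite_of_monic _ (fun l => Ideal.Quotient.mkₐ k I (y l)) (main_adjoin_mk I)
      m hm fun i => by rw [← map_ev2]; exact Ideal.Quotient.eq_zero_iff_mem.2 (h i)
    have h3 := AlgHom.Finite.comp (AlgHom.Finite.of_surjective (Ideal.Quotient.factorₐ k hP.2.1)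
      (Ideal.Quotient.factor_surjective hP.2.1)) (h1.comp h2)
    rw [MvPolynomial.comp_aeval, MvPolynomial.comp_aeval] at h3
    refine algebraicIndependent_iff.1 (algInd_of_finite (fun l => Ideal.Quotient.mkₐ k P (y l)) _
      (algebraicIndependent_iff.2 fun θ hθ => hP.2.2 θ ((e y θ).1 hθ)) h3) θ
      ((e (fun l => aeval f (y l)) θ).2 ?_)
    rwa [← MvPolynomial.comp_aeval_apply]
  have hj : ∀ j, P₀.comap (aeval (R := k) f ^ j) ∈ W := fun j => by
    induction j with
    | zero => exact hP₀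
    | succ j ih => rw [pow_succ]; exact hst _ ih
  obtain ⟨a, b, hab, e⟩ := Set.Finite.exists_lt_map_eq_of_forall_mem hj hfin
  refine ⟨_, b - a, by omega, (hj a).1, (hj a).2.1, (hj a).2.2, fun w hw => ?_⟩
  rw [Ideal.mem_comap, aeval_iter, ← AlgHom.mul_apply, ← pow_add, Nat.add_sub_cancel' hab.le]
  exact (SetLike.ext_iff.1 e w).1 hw

theorem map_iterate {A B : Type} [CommRing A] [CommRing B] (φ : A →+* B) {n : ℕ}
    (f : Fin n → MvPolynomial (Fin n) A) (a : Fin n → A) (j : ℕ) (w : MvPolynomial (Fin n) A) :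
    φ (aeval ((dyn f)^[j] a) w) =
      aeval ((dyn fun i => (f i).map φ)^[j] fun i => φ (a i)) (w.map φ) := by
  induction j generalizing w with
  | zero => exact ringHom_aeval φ φ (fun _ => rfl) a w
  | succ j ih =>
    rw [ringHom_aeval φ φ (fun _ => rfl), Function.iterate_succ_apply',
      Function.iterate_succ_apply']
    exact congrArg (aeval · (w.map φ)) (funext fun i => ih (f i))

theorem map_aeval' {A B σ τ : Type} [CommRing A] [CommRing B] (φ : A →+* B)
    (f : σ → MvPolynomial τ A) (w : MvPolynomial σ A) :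
    (aeval f w).map φ = aeval (fun i => (f i).map φ) (w.map φ) :=
  ringHom_aeval φ (MvPolynomial.map φ) (fun _ => MvPolynomial.map_C _ _) f w

theorem map_ev2' {A B σ τ : Type} [CommRing A] [CommRing B] (φ : A →+* B)
    (y : σ → MvPolynomial τ A) (i : τ) (G : (MvPolynomial σ A)[X]) :
    (ev2 y (MvPolynomial.X i) G).map φ =
      ev2 (fun l => (y l).map φ) (MvPolynomial.X i) (G.map (MvPolynomial.map φ)) := by
  rw [ringHom_ev2 φ (MvPolynomial.map φ) (fun _ => MvPolynomial.map_C _ _), MvPolynomial.map_X]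

theorem core {A K : Type} [CommRing A] [IsDomain A] [IsIntegrallyClosed A] [Field K]
    [IsAlgClosed K] [Algebra A K] [IsFractionRing A K] (φ : A →+* Qb)
    (hφ : Function.Surjective φ) {n d q : ℕ} {y : Fin d → MvPolynomial (Fin n) A}
    {m : Fin n → (MvPolynomial (Fin d) A)[X]} {I : Ideal (MvPolynomial (Fin n) K)} [I.IsPrime]
    {f : Fin n → MvPolynomial (Fin n) A} (hq : 2 ≤ q) (hf : ∀ i, (f i).IsHomogeneous q)
    (hz : ∀ i, ∃ a : ℕ, MvPolynomial.X i ^ a ∈ Ideal.span (Set.range f))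
    (hs : ∀ w ∈ I, aeval (fun i => (f i).map (algebraMap A K)) w ∈ I) (hm : ∀ i, (m i).Monic)
    (h : ∀ i, (ev2 y (MvPolynomial.X i) (m i)).map (algebraMap A K) ∈ I)
    (hi : ∀ θ, aeval (R := K) (fun l => (y l).map (algebraMap A K)) θ ∈ I → θ = 0) :
    ∃ α ∈ zeroLocus K I, Gn (fun i => (f i).map (algebraMap A K)) I 1 α := by
  let J := I.comap (MvPolynomial.map (σ := Fin n) (algebraMap A K))
  have hJ : ∀ θ, aeval (R := A) y θ ∈ J → θ = 0 := fun θ hθ =>
    MvPolynomial.map_injective _ (IsFractionRing.injective A K)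
      ((hi _ (map_aeval' (algebraMap A K) y θ ▸ hθ)).trans (map_zero _).symm)
  have hz' : ∀ i, ∃ a : ℕ, MvPolynomial.X i ^ a ∈ Ideal.span (Set.range fun i => (f i).map φ) :=
    fun i => (hz i).imp fun a ha => by
      simpa [Ideal.map_span, ← Set.range_comp, Function.comp_def] using
        Ideal.mem_map_of_mem (MvPolynomial.map φ) ha
  obtain ⟨P, M, hM, hP, h1, h2, h3⟩ := exists_comp (I := J.map (MvPolynomial.map φ))
    (y := fun l => (y l).map φ) (m := fun i => (m i).map (MvPolynomial.map φ))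
    (f := fun i => (f i).map φ) (q := q) (by omega) (fun i => (hf i).map φ) hz'
    (fun w hw => (Ideal.map_le_iff_le_comap (K := Ideal.comap (aeval (R := Qb) fun i => (f i).map φ)
      (J.map (MvPolynomial.map φ)))).2 (fun w hw => by
        rw [Ideal.mem_comap, Ideal.mem_comap, ← map_aeval']
        refine Ideal.mem_map_of_mem _ ?_
        rw [Ideal.mem_comap, map_aeval']
        exact hs _ hw) hw)
    (fun i => (hm i).map _) (fun i => map_ev2' φ y i (m i) ▸ Ideal.mem_map_of_mem _ (h i))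
    fun θ hθ => MvPolynomial.funext fun η' => by
      choose η hη using fun l => hφ (η' l)
      obtain ⟨a, a1, a2⟩ := surj_pt K hm h hJ η
      have := (Ideal.map_le_iff_le_comap (K := RingHom.ker (aeval (R := Qb) fun i => φ (a i)))).2
        (fun w hw => by
          rw [Ideal.mem_comap, RingHom.mem_ker, ← ringHom_aeval φ φ (fun _ => rfl), a2 w hw,
            map_zero]) hθ
      rw [RingHom.mem_ker, MvPolynomial.comp_aeval_apply] at this
      simpa only [← ringHom_aeval φ φ (fun _ => rfl), a1, hη, MvPolynomial.aeval_eq_eval,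
        map_zero] using this
  obtain ⟨b, hb, hG⟩ := lvQ n (q ^ M) (iter (fun i => (f i).map φ) M) P
    (hq.trans (Nat.le_self_pow (by omega) q)) (iter_isHomogeneous _ (fun i => (hf i).map φ) M)
    (fun x hx => iterate_eq_zero _ (fun x hx => funext fun i => by
      obtain ⟨a, ha⟩ := hz' i
      have := (Ideal.span_le (I := RingHom.ker (aeval (R := Qb) x))).2
        (by rintro _ ⟨j, rfl⟩; exact hx j) ha
      exact eq_zero_of_pow_eq_zero (n := a) (by simpa using this)) M x
      ((dyn_iter _ M x).symm.trans (funext hx))) hP h3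
  obtain ⟨a, hab, ha⟩ := lift_pt K hm h hJ φ hφ b
    fun w hw => hb _ (h1 (Ideal.mem_map_of_mem _ hw))
  obtain rfl : (fun i => φ (a i)) = b := funext hab
  have hα : (fun i => algebraMap A K (a i)) ∈ zeroLocus K I := fun w hw => by
    obtain ⟨s, s0, w', e⟩ := exists_denom (A := A) w
    have h4 := congrArg (algebraMap A K) (ha w' (Ideal.mem_comap.2 (e ▸ I.mul_mem_left _ hw)))
    rw [ringHom_aeval (algebraMap A K) (algebraMap A K) (fun _ => rfl), e, map_mul,
      map_zero] at h4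
    exact (mul_eq_zero.1 h4).resolve_left (by simpa using s0)
  refine ⟨_, hα, Gn.one hM hs hα fun w hw => ?_⟩
  obtain ⟨θ, t0, u, t1⟩ := norm_mem (y := fun l => (y l).map (algebraMap A K))
    (fun i => (hm i).map (MvPolynomial.map (algebraMap A K)))
    (fun i => map_ev2' (algebraMap A K) y i (m i) ▸ h i) hw
  obtain ⟨θ', t2, t3⟩ := poly_spec φ hφ θ t0
  refine (hG _ fun e => t2 (h2 θ' e)).subset fun j hj => ?_
  have h5 := iterate_mem_zeroLocus hs (M * j) hα _ t1
  rw [map_sub, map_mul, hj, mul_zero, sub_zero, MvPolynomial.comp_aeval_apply] at h5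
  have h6 := t3 (fun l => aeval ((dyn f)^[M * j] a) (y l)) (by simpa only [map_iterate] using h5)
  rw [Set.mem_ofPred_eq, MvPolynomial.comp_aeval_apply, funext (dyn_iter _ M), one_mul,
    ← Function.iterate_mul]
  simpa only [map_iterate] using h6

theorem lvK (K : Type) [Field K] [IsAlgClosed K] [CharZero K] : Lv K := by
  intro n q f I hq hf hz hI hs
  have : Algebra.IsAlgebraic ℚ Qb := AlgebraicClosure.isAlgebraic ℚ
  let : Algebra Qb K := (IsAlgClosed.lift : Qb →ₐ[ℚ] K).toRingHom.toAlgebra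
  obtain ⟨d, g, hg, hfin⟩ := exists_finite_inj_algHom_of_fg K (MvPolynomial (Fin n) K ⧸ I)
  choose y hy using fun l => Ideal.Quotient.mkₐ_surjective K I (g (MvPolynomial.X l))
  have e : g = (Ideal.Quotient.mkₐ K I).comp (aeval y) :=
    MvPolynomial.algHom_ext fun l => by simpa using (hy l).symm
  choose m hm h using fun i => RingHom.IsIntegral.of_finite hfin
    (Ideal.Quotient.mk I (MvPolynomial.X i))
  choose a ha using pow_mem_span_of_zero f hz
  choose c hc using fun i => Ideal.mem_span_range_iff_exists_fun.1 (ha i)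
  obtain ⟨A, φ, hT, hφ, h1, h2⟩ := exists_place (k := Qb) (K := K)
    (T := ((⋃ i, (f i).coeffs) ∪ ⋃ l, (y l).coeffs) ∪ ((⋃ i, ⋃ j, (c i j).coeffs) ∪
      ⋃ i, ⋃ j ∈ (m i).support, ((m i).coeff j).coeffs))
    (((Set.finite_iUnion fun _ => Finset.finite_toSet _).union
      (Set.finite_iUnion fun _ => Finset.finite_toSet _)).union
      ((Set.finite_iUnion fun _ => Set.finite_iUnion fun _ => Finset.finite_toSet _).union
        (Set.finite_iUnion fun i => (m i).support.finite_toSet.biUnion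
          fun _ _ => Finset.finite_toSet _)))
  have : IsFractionRing A K := IsFractionRing.of_field A K fun x => by
    obtain ⟨s, s1, s2, s3⟩ := h2 x
    exact ⟨⟨_, s3⟩, ⟨s, s1⟩, (mul_div_cancel_left₀ x s2).symm⟩
  have : IsIntegrallyClosed A := (isIntegrallyClosed_iff K).2 fun hx => ⟨⟨_, h1 _ hx⟩, rfl⟩
  have hl : ∀ {σ : Type} (p : MvPolynomial σ K), (p.coeffs : Set K) ⊆ A →
      ∃ p' : MvPolynomial σ A, p'.map (algebraMap A K) = p := fun p hp =>
    MvPolynomial.mem_range_map_iff_coeffs_subset.2 fun x hx => ⟨⟨x, hp hx⟩, rfl⟩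
  simp only [Set.union_subset_iff, Set.iUnion_subset_iff] at hT
  choose f' hf' using fun i => hl (f i) (hT.1.1 i)
  choose y' hy' using fun l => hl (y l) (hT.1.2 l)
  choose c' hc' using fun i j => hl (c i j) (hT.2.1 i j)
  choose m' m1 _ m2 using fun i => lifts_and_degree_eq_and_monic
    (f := MvPolynomial.map (σ := Fin d) (algebraMap A K)) ((lifts_iff_coeff_lifts _).2 fun j => by
      by_cases hj : j ∈ (m i).support
      · exact hl _ (hT.2.2 i j hj)
      · exact ⟨0, by rw [notMem_support_iff.1 hj, map_zero]⟩) (hm i)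
  obtain rfl : (fun i => (f' i).map (algebraMap A K)) = f := funext hf'
  obtain rfl : (fun l => (y' l).map (algebraMap A K)) = y := funext hy'
  have inj := MvPolynomial.map_injective (σ := Fin n) _ (IsFractionRing.injective A K)
  refine core φ hφ (y := y') (m := m') hq
    (fun i => (hf i).of_map (IsFractionRing.injective A K))
    (fun i => ⟨a i, Ideal.mem_span_range_iff_exists_fun.2 ⟨c' i, inj ?_⟩⟩) hs m2 (fun i => ?_)
    fun θ hθ => hg ?_
  · simpa [hc'] using hc i
  · rw [map_ev2', m1, ← Ideal.Quotient.eq_zero_iff_mem, ← h i, e, ev2, coe_eval₂RingHom,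
      hom_eval₂]
    rfl
  · rw [e, map_zero]
    exact Ideal.Quotient.eq_zero_iff_mem.2 hθ

end Pool.Agent.P.MP_38c95b_ag.G
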